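import Pool.Agent.helper46.ESM.Spec

set_option autoImplicit false

namespace Pool.Agent.helper46.ESM

open Subgroup Pool.Agent.helper80.EN

universe u

theorem CR1_map {G G' : Type u} [Group G] [Group G'] (f : G →* G') (x y : G) (n : ℕ) :
    f (icom x y n) = icom (f x) (f y) n := by
  induction n with
  | zero => rfl
  | succ n ih =>
    show f (com (icom x y n) y) = com (icom (f x) (f y) n) (f y)
    rw [← ih]
    simp only [com, map_mul, map_inv]

theorem CR1 (h1 : PRJ_stmt.{u}) (h2 : EGS_stmt.{u}) : CR1_stmt.{u} := by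
  intro D _ K hK φ hs hne x y
  obtain ⟨z, hz1, hz2⟩ := h1 D K hK φ hs hne x y
  refine ⟨z, fun n hn => h2 (D ⧸ K) x y n ?_⟩
  have h3 := congrArg (QuotientGroup.mk' K) hn
  rw [CR1_map, map_mul, hz1, hz2, map_one] at h3
  exact h3

end Pool.Agent.helper46.ESM
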