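import Pool.Agent.helper46.ESM.Spec

set_option autoImplicit false

namespace Pool.Agent.helper46.ESM

open Subgroup Pool.Agent.helper80.EN

universe u

theorem PRJ_sup {D : Type u} [Group D] (K K' : Subgroup D) [K.Normal] [K'.Normal]
    (h : K'.map (QuotientGroup.mk' K) = ⊤) : K ⊔ K' = ⊤ := by
  rw [eq_top_iff]
  intro d _
  have h1 : QuotientGroup.mk' K d ∈ K'.map (QuotientGroup.mk' K) := by rw [h]; trivial
  obtain ⟨k', hk', he⟩ := h1
  have h2 : k'⁻¹ * d ∈ K := QuotientGroup.eq.1 he
  have h3 : d = k' * (k'⁻¹ * d) := by group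
  rw [h3]
  exact mul_mem (mem_sup_right hk') (mem_sup_left h2)

theorem PRJ : PRJ_stmt.{u} := by
  intro D _ K hK φ hs hne x y
  have hK' : (K.comap φ.toMonoidHom).Normal := hK.comap φ.toMonoidHom
  set K' := K.comap φ.toMonoidHom with hK'def
  have hmem : ∀ d, d ∈ K' ↔ φ d ∈ K := fun d => Iff.rfl
  have htop : K ⊔ K' = ⊤ := by
    have hn1 : (K'.map (QuotientGroup.mk' K)).Normal :=
      hK'.map _ (QuotientGroup.mk'_surjective K)
    rcases hs.eq_bot_or_eq_top_of_normal _ hn1 with h | h
    · exfalso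
      have hle : K' ≤ K := by
        intro d hd
        have h1 : QuotientGroup.mk' K d ∈ K'.map (QuotientGroup.mk' K) := ⟨d, hd, rfl⟩
        rw [h, mem_bot] at h1
        exact (QuotientGroup.eq_one_iff d).1 h1
      have hsurj : Function.Surjective ((QuotientGroup.mk' K).comp φ.toMonoidHom) :=
        (QuotientGroup.mk'_surjective K).comp φ.surjective
      have hn2 : (K.map ((QuotientGroup.mk' K).comp φ.toMonoidHom)).Normal := hK.map _ hsurj
      rcases hs.eq_bot_or_eq_top_of_normal _ hn2 with h2 | h2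
      · apply hne
        have hle2 : K ≤ K' := by
          intro d hd
          have h1 : ((QuotientGroup.mk' K).comp φ.toMonoidHom) d ∈
            K.map ((QuotientGroup.mk' K).comp φ.toMonoidHom) := ⟨d, hd, rfl⟩
          rw [h2, mem_bot] at h1
          exact (QuotientGroup.eq_one_iff (φ d)).1 h1
        have heq : K' = K := le_antisymm hle hle2
        have h3 : K'.map φ.toMonoidHom = K := map_comap_eq_self_of_surjective φ.surjective K
        rw [heq] at h3
        exact h3
      · have hKt : K = ⊤ := by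
          rw [eq_top_iff]
          intro d _
          have h1 : QuotientGroup.mk' K (φ d) ∈
            K.map ((QuotientGroup.mk' K).comp φ.toMonoidHom) := by rw [h2]; trivial
          obtain ⟨k, hk, he⟩ := h1
          have h4 : (φ k)⁻¹ * φ d ∈ K := QuotientGroup.eq.1 he
          have h5 : k⁻¹ * d ∈ K' := by
            rw [hmem, map_mul, map_inv]; exact h4
          have h6 : d = k * (k⁻¹ * d) := by group
          rw [h6]
          exact mul_mem hk (hle h5)
        obtain ⟨a, b, hab⟩ := hs.exists_pair_ne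
        apply hab
        obtain ⟨a', rfl⟩ := QuotientGroup.mk'_surjective K a
        obtain ⟨b', rfl⟩ := QuotientGroup.mk'_surjective K b
        have h7 : a'⁻¹ * b' ∈ K := by rw [hKt]; trivial
        exact QuotientGroup.eq.2 h7
    · exact PRJ_sup K K' h
  obtain ⟨x0, rfl⟩ := QuotientGroup.mk'_surjective K x
  obtain ⟨u, rfl⟩ := QuotientGroup.mk'_surjective K y
  have h8 : x0⁻¹ * (φ.symm u)⁻¹ ∈ K ⊔ K' := by rw [htop]; trivial
  rw [← SetLike.mem_coe, Subgroup.mul_normal] at h8
  obtain ⟨k, hk, k', hk', he⟩ := Set.mem_mul.1 h8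
  refine ⟨x0 * k, ?_, ?_⟩
  · refine QuotientGroup.eq.2 ?_
    have : (x0 * k)⁻¹ * x0 = k⁻¹ := by group
    rw [this]
    exact inv_mem hk
  · have h9 : (x0 * k)⁻¹ = k' * φ.symm u := by
      have h10 : x0⁻¹ * (φ.symm u)⁻¹ = k * k' := he.symm
      have h11 : φ.symm u = k'⁻¹ * k⁻¹ * x0⁻¹ := by
        have := congrArg (fun t => t⁻¹ * x0⁻¹) h10
        simp only [mul_inv_rev, inv_inv, mul_inv_cancel_right] at this
        exact this
      rw [h11]
      group
    rw [h9, map_mul, MulEquiv.apply_symm_apply]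
    refine QuotientGroup.eq.2 ?_
    have h12 : φ k' ∈ K := (hmem k').1 hk'
    have h13 : (φ k' * u)⁻¹ * u = u⁻¹ * (φ k')⁻¹ * u := by group
    rw [h13]
    have := hK.conj_mem _ (inv_mem h12) u⁻¹
    rwa [inv_inv] at this

end Pool.Agent.helper46.ESM
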